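import Pool.Agent.H76.GU.Targets

/-! Row OMG of the board gu: a weight for the block diagonal group. -/

namespace Pool.Agent.H4.GU

open MeasureTheory Pool.Agent.H34.GM Pool.Agent.H34.GZ Pool.Agent.H34.GU Pool.Agent.H76.GU

/-- the size of the rows `< k` and of the columns `≥ k` of the inverse -/
noncomputable def So {m : ℕ} (k : ℕ) (z : Mat m) : ℝ :=
  (∑ i : Fin m, ∑ l : Fin m, if (i : ℕ) < k then |z i l| else 0) +
    ∑ l : Fin m, ∑ j : Fin m, if k ≤ (j : ℕ) then |z⁻¹ l j| else 0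

theorem So_nonneg {m : ℕ} (k : ℕ) (z : Mat m) : 0 ≤ So k z := by
  unfold So
  refine add_nonneg (Finset.sum_nonneg fun i _ => Finset.sum_nonneg fun l _ => ?_)
    (Finset.sum_nonneg fun i _ => Finset.sum_nonneg fun l _ => ?_)
  · split_ifs
    · exact abs_nonneg _
    · exact le_rfl
  · split_ifs
    · exact abs_nonneg _
    · exact le_rfl

theorem le_So_row {m : ℕ} (k : ℕ) (z : Mat m) (i : Fin m) (hi : (i : ℕ) < k) :
    ∑ l, |z i l| ≤ So k z := by
  unfold So
  have h1 : ∑ l, |z i l| ≤ ∑ i : Fin m, ∑ l : Fin m, if (i : ℕ) < k then |z i l| else 0 := by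
    refine le_trans (le_of_eq ?_) (Finset.single_le_sum (f := fun i : Fin m =>
      ∑ l : Fin m, if (i : ℕ) < k then |z i l| else 0) (fun i _ => ?_) (Finset.mem_univ i))
    · simp only [if_pos hi]
    · refine Finset.sum_nonneg fun l _ => ?_
      split_ifs
      · exact abs_nonneg _
      · exact le_rfl
  have h2 : (0 : ℝ) ≤ ∑ l : Fin m, ∑ j : Fin m, if k ≤ (j : ℕ) then |z⁻¹ l j| else 0 := by
    refine Finset.sum_nonneg fun i _ => Finset.sum_nonneg fun l _ => ?_
    split_ifs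
    · exact abs_nonneg _
    · exact le_rfl
  linarith

theorem le_So_col {m : ℕ} (k : ℕ) (z : Mat m) (j : Fin m) (hj : k ≤ (j : ℕ)) :
    ∑ l, |z⁻¹ l j| ≤ So k z := by
  unfold So
  have h1 : ∑ l, |z⁻¹ l j| ≤ ∑ l : Fin m, ∑ j : Fin m, if k ≤ (j : ℕ) then |z⁻¹ l j| else 0 := by
    refine Finset.sum_le_sum fun l _ => ?_
    refine le_trans (le_of_eq ?_) (Finset.single_le_sum (f := fun j : Fin m =>
      if k ≤ (j : ℕ) then |z⁻¹ l j| else 0) (fun i _ => ?_) (Finset.mem_univ j))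
    · simp only [if_pos hj]
    · split_ifs
      · exact abs_nonneg _
      · exact le_rfl
  have h2 : (0 : ℝ) ≤ ∑ i : Fin m, ∑ l : Fin m, if (i : ℕ) < k then |z i l| else 0 := by
    refine Finset.sum_nonneg fun i _ => Finset.sum_nonneg fun l _ => ?_
    split_ifs
    · exact abs_nonneg _
    · exact le_rfl
  linarith

theorem measurable_So {m : ℕ} (k : ℕ) : Measurable fun z : V m => So k (mt z) := by
  have hinv : ∀ l j : Fin m, Measurable fun z : V m => (mt z)⁻¹ l j := by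
    intro l j
    have h1 : (fun z : V m => (mt z)⁻¹ l j) =
        fun z : V m => ((mt z).det)⁻¹ * (mt z).adjugate l j := by
      funext z
      rw [Matrix.inv_def, Ring.inverse_eq_inv', Matrix.smul_apply, smul_eq_mul]
    rw [h1]
    have hid : Continuous fun z : V m => mt z := continuous_id
    have hd : Continuous fun z : V m => (mt z).det := hid.matrix_det
    have ha : Continuous fun z : V m => (mt z).adjugate l j :=
      (hid.matrix_adjugate).matrix_elem l j
    exact hd.measurable.inv.mul ha.measurable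
  unfold So
  refine Measurable.add ?_ ?_
  · refine Finset.measurable_sum _ fun i _ => Finset.measurable_sum _ fun l _ => ?_
    split_ifs
    · have h : Measurable fun z : V m => z i l :=
        (measurable_pi_apply l).comp (measurable_pi_apply i)
      exact measurable_norm.comp h
    · exact measurable_const
  · refine Finset.measurable_sum _ fun l _ => Finset.measurable_sum _ fun j _ => ?_
    split_ifs
    · exact measurable_norm.comp (hinv l j)
    · exact measurable_const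

theorem nk_sq {m : ℕ} (k : ℕ) (u : V m) : nk k u * nk k u = 0 := by
  ext i j
  rw [Matrix.mul_apply, Matrix.zero_apply]
  refine Finset.sum_eq_zero fun l _ => ?_
  simp only [nk, Matrix.of_apply]
  by_cases h : (l : ℕ) < k
  · rw [if_neg (fun h' : (j : ℕ) < k ∧ k ≤ (l : ℕ) => absurd h'.2 (not_le.2 h)), mul_zero]
  · rw [if_neg (fun h' : (l : ℕ) < k ∧ k ≤ (i : ℕ) => h h'.1), zero_mul]

theorem So_inv {m : ℕ} (k : ℕ) (u : V m) (z : Mat m) : So k ((1 + nk k u) * z) = So k z := by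
  have h1 : (1 + nk k u)⁻¹ = 1 - nk k u := by
    refine Matrix.inv_eq_right_inv ?_
    have h := nk_sq k u
    calc (1 + nk k u) * (1 - nk k u) = 1 - nk k u * nk k u := by noncomm_ring
      _ = 1 := by rw [h, sub_zero]
  unfold So
  refine congrArg₂ (· + ·) ?_ ?_
  · refine Finset.sum_congr rfl fun i _ => Finset.sum_congr rfl fun l _ => ?_
    by_cases hi : (i : ℕ) < k
    · rw [if_pos hi, if_pos hi]
      have h2 : ((1 + nk k u) * z) i l = z i l := by
        rw [add_mul, one_mul, Matrix.add_apply, Matrix.mul_apply,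
          Finset.sum_eq_zero (fun j _ => ?_), add_zero]
        simp only [nk, Matrix.of_apply]
        rw [if_neg (fun h' : (j : ℕ) < k ∧ k ≤ (i : ℕ) => absurd h'.2 (not_le.2 hi)), zero_mul]
      rw [h2]
    · rw [if_neg hi, if_neg hi]
  · refine Finset.sum_congr rfl fun l _ => Finset.sum_congr rfl fun j _ => ?_
    by_cases hj : k ≤ (j : ℕ)
    · rw [if_pos hj, if_pos hj]
      have h2 : ((1 + nk k u) * z)⁻¹ l j = z⁻¹ l j := by
        rw [Matrix.mul_inv_rev, h1, mul_sub, mul_one, Matrix.sub_apply, Matrix.mul_apply,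
          Finset.sum_eq_zero (fun i _ => ?_), sub_zero]
        simp only [nk, Matrix.of_apply]
        rw [if_neg (fun h' : (j : ℕ) < k ∧ k ≤ (i : ℕ) => absurd h'.1 (not_lt.2 hj)), mul_zero]
      rw [h2]
    · rw [if_neg hj, if_neg hj]

theorem tsum_pi_le {β : Type} (m : ℕ) (a : β → ENNReal) :
    ∑' f : Fin m → β, ∏ i, a (f i) ≤ (∑' b, a b) ^ m := by
  classical
  rw [ENNReal.tsum_eq_iSup_sum]
  refine iSup_le fun s => ?_
  have h1 : s ⊆ Fintype.piFinset (fun i => s.image fun f => f i) := by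
    intro f hf
    rw [Fintype.mem_piFinset]
    intro i
    exact Finset.mem_image_of_mem (fun f : Fin m → β => f i) hf
  calc ∑ f ∈ s, ∏ i, a (f i)
      ≤ ∑ f ∈ Fintype.piFinset (fun i => s.image fun f => f i), ∏ i, a (f i) :=
        Finset.sum_le_sum_of_subset h1
    _ = ∏ i, ∑ b ∈ s.image (fun f => f i), a b := by
        rw [Finset.prod_univ_sum]
    _ ≤ ∏ _i : Fin m, ∑' b, a b :=
        Finset.prod_le_prod' fun i _ => ENNReal.sum_le_tsum _
    _ = (∑' b, a b) ^ m := by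
        rw [Finset.prod_const, Finset.card_univ, Fintype.card_fin]

theorem summ_int (C : ℝ) (hC : 1 ≤ C) :
    ∑' n : ℤ, ENNReal.ofReal (((1 + |(n : ℝ)| / C) ^ 2)⁻¹) ≠ ⊤ := by
  have hC0 : 0 < C := by linarith
  have h0 : ∀ n : ℤ, 0 ≤ ((1 + |(n : ℝ)| / C) ^ 2)⁻¹ := fun n => by positivity
  have hs : Summable fun n : ℤ => ((1 + |(n : ℝ)| / C) ^ 2)⁻¹ := by
    have h1 : Summable fun n : ℤ => (if n = 0 then (1 : ℝ) else 0) + C ^ 2 * (1 / (n : ℝ) ^ 2) :=
      (hasSum_ite_eq (0 : ℤ) (1 : ℝ)).summable.add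
        ((Real.summable_one_div_int_pow.2 (by norm_num)).mul_left _)
    refine Summable.of_nonneg_of_le h0 (fun n => ?_) h1
    by_cases hn : n = 0
    · subst hn
      simp
    · rw [if_neg hn, zero_add]
      have hn0 : (n : ℝ) ≠ 0 := Int.cast_ne_zero.2 hn
      have hn1 : 0 < |(n : ℝ)| := abs_pos.2 hn0
      have h2 : (|(n : ℝ)| / C) ^ 2 ≤ (1 + |(n : ℝ)| / C) ^ 2 :=
        pow_le_pow_left₀ (by positivity) (by linarith) 2
      calc ((1 + |(n : ℝ)| / C) ^ 2)⁻¹ ≤ ((|(n : ℝ)| / C) ^ 2)⁻¹ :=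
            inv_anti₀ (by positivity) h2
        _ = C ^ 2 * (1 / (n : ℝ) ^ 2) := by
            rw [div_pow, sq_abs, inv_div, mul_one_div]
  rw [← ENNReal.ofReal_tsum_of_nonneg h0 hs]
  exact ENNReal.ofReal_ne_top

theorem cR_mul {m : ℕ} (a b : ZM m) : cR (a * b) = cR a * cR b := by
  unfold cR
  ext i j
  simp [Matrix.mul_apply, Matrix.map_apply]

theorem cR_one {m : ℕ} : cR (1 : ZM m) = 1 := by
  unfold cR
  ext i j
  simp [Matrix.map_apply, Matrix.one_apply]

/-- the integer matrix attached to a block diagonal unit -/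
noncomputable def Eq_ {m : ℕ} (k : ℕ) (q : ZM m) : Fin m → Fin m → ℤ :=
  fun i j => if (i : ℕ) < k then q i j else if k ≤ (j : ℕ) then q⁻¹ i j else 0

theorem isu {m : ℕ} {q : ZM m} (h : IsUnit q) : IsUnit q.det :=
  (Matrix.isUnit_iff_isUnit_det q).1 h

/-- the projection to the first coordinates -/
def Pk (m k : ℕ) : ZM m := Matrix.diagonal fun i => if (i : ℕ) < k then 1 else 0

theorem Pk_comm {m k : ℕ} {q : ZM m} (h : InQ k q) : Pk m k * q = q * Pk m k := by
  ext i j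
  rw [Pk, Matrix.diagonal_mul, Matrix.mul_diagonal]
  by_cases hi : (i : ℕ) < k
  · by_cases hj : (j : ℕ) < k
    · rw [if_pos hi, if_pos hj, one_mul, mul_one]
    · rw [h.2 i j (Or.inl ⟨hi, not_lt.1 hj⟩), mul_zero, zero_mul]
  · by_cases hj : (j : ℕ) < k
    · rw [h.2 i j (Or.inr ⟨hj, not_lt.1 hi⟩), mul_zero, zero_mul]
    · rw [if_neg hi, if_neg hj, zero_mul, mul_zero]

theorem Pk_comm_inv {m k : ℕ} {q : ZM m} (h : InQ k q) : Pk m k * q⁻¹ = q⁻¹ * Pk m k := by
  have hu := isu h.1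
  calc Pk m k * q⁻¹ = (q⁻¹ * q) * (Pk m k * q⁻¹) := by
        rw [Matrix.nonsing_inv_mul q hu, one_mul]
    _ = q⁻¹ * ((q * Pk m k) * q⁻¹) := by noncomm_ring
    _ = q⁻¹ * ((Pk m k * q) * q⁻¹) := by rw [Pk_comm h]
    _ = q⁻¹ * Pk m k * (q * q⁻¹) := by noncomm_ring
    _ = q⁻¹ * Pk m k := by rw [Matrix.mul_nonsing_inv q hu, mul_one]

theorem inv_zero {m k : ℕ} {q : ZM m} (h : InQ k q) (i j : Fin m) (hi : ¬ (i : ℕ) < k)
    (hj : ¬ k ≤ (j : ℕ)) : q⁻¹ i j = 0 := by
  have h1 := congrFun (congrFun (Pk_comm_inv h) i) j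
  rw [Pk, Matrix.diagonal_mul, Matrix.mul_diagonal, if_neg hi, if_pos (not_le.1 hj), zero_mul,
    mul_one] at h1
  exact h1.symm

theorem Eq_inj {m k : ℕ} {q q' : ZM m} (h : InQ k q) (h' : InQ k q')
    (he : Eq_ k q = Eq_ k q') : q = q' := by
  have hu := isu h.1
  have hu' := isu h'.1
  have h1 : Pk m k * q = Pk m k * q' := by
    ext i j
    rw [Pk, Matrix.diagonal_mul, Matrix.diagonal_mul]
    by_cases hi : (i : ℕ) < k
    · have h2 := congrFun (congrFun he i) j
      simp only [Eq_, if_pos hi] at h2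
      rw [h2]
    · rw [if_neg hi, zero_mul, zero_mul]
  have h2 : (1 - Pk m k) * q⁻¹ = (1 - Pk m k) * q'⁻¹ := by
    have h3 : ∀ i j : Fin m, ¬ (i : ℕ) < k → q⁻¹ i j = q'⁻¹ i j := by
      intro i j hi
      by_cases hj : k ≤ (j : ℕ)
      · have h2 := congrFun (congrFun he i) j
        simp only [Eq_, if_neg hi, if_pos hj] at h2
        exact h2
      · rw [inv_zero h i j hi hj, inv_zero h' i j hi hj]
    ext i j
    rw [sub_mul, sub_mul, one_mul, one_mul, Matrix.sub_apply, Matrix.sub_apply, Pk,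
      Matrix.diagonal_mul, Matrix.diagonal_mul]
    by_cases hi : (i : ℕ) < k
    · rw [if_pos hi, one_mul, one_mul, sub_self, sub_self]
    · rw [if_neg hi, zero_mul, zero_mul, sub_zero, sub_zero, h3 i j hi]
  have hc' : (1 - Pk m k) * q' = q' * (1 - Pk m k) := by
    rw [sub_mul, mul_sub, one_mul, mul_one, Pk_comm h']
  have h4 : (1 - Pk m k) * q = (1 - Pk m k) * q' := by
    calc (1 - Pk m k) * q = (1 - Pk m k) * ((q' * q'⁻¹) * q) := by
          rw [Matrix.mul_nonsing_inv q' hu', one_mul]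
      _ = ((1 - Pk m k) * q') * (q'⁻¹ * q) := by noncomm_ring
      _ = (q' * (1 - Pk m k)) * (q'⁻¹ * q) := by rw [hc']
      _ = q' * (((1 - Pk m k) * q'⁻¹) * q) := by noncomm_ring
      _ = q' * (((1 - Pk m k) * q⁻¹) * q) := by rw [h2]
      _ = (q' * (1 - Pk m k)) * (q⁻¹ * q) := by noncomm_ring
      _ = q' * (1 - Pk m k) := by rw [Matrix.nonsing_inv_mul q hu, mul_one]
      _ = (1 - Pk m k) * q' := hc'.symm
  calc q = Pk m k * q + (1 - Pk m k) * q := by noncomm_ring
    _ = Pk m k * q' + (1 - Pk m k) * q' := by rw [h1, h4]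
    _ = q' := by noncomm_ring

theorem Eq_bound {m k : ℕ} {q : ZM m} (h : InQ k q) (z : Mat m) (hz : z.det ≠ 0) (i j : Fin m) :
    |(Eq_ k q i j : ℝ)| ≤
      (1 + (∑ i : Fin m, ∑ j : Fin m, |z i j|) + ∑ i : Fin m, ∑ j : Fin m, |z⁻¹ i j|) *
        So k (cR q * z) := by
  have hu := isu h.1
  have hzu : IsUnit z.det := isUnit_iff_ne_zero.2 hz
  set A : ℝ := ∑ i : Fin m, ∑ j : Fin m, |z i j|
  set B : ℝ := ∑ i : Fin m, ∑ j : Fin m, |z⁻¹ i j|
  have hA : 0 ≤ A := Finset.sum_nonneg fun i _ => Finset.sum_nonneg fun j _ => abs_nonneg _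
  have hB : 0 ≤ B := Finset.sum_nonneg fun i _ => Finset.sum_nonneg fun j _ => abs_nonneg _
  have hAe : ∀ i j, |z i j| ≤ A := fun i j =>
    le_trans (Finset.single_le_sum (f := fun j => |z i j|) (fun _ _ => abs_nonneg _)
      (Finset.mem_univ j)) (Finset.single_le_sum (f := fun i => ∑ j, |z i j|)
      (fun _ _ => Finset.sum_nonneg fun _ _ => abs_nonneg _) (Finset.mem_univ i))
  have hBe : ∀ i j, |z⁻¹ i j| ≤ B := fun i j =>
    le_trans (Finset.single_le_sum (f := fun j => |z⁻¹ i j|) (fun _ _ => abs_nonneg _)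
      (Finset.mem_univ j)) (Finset.single_le_sum (f := fun i => ∑ j, |z⁻¹ i j|)
      (fun _ _ => Finset.sum_nonneg fun _ _ => abs_nonneg _) (Finset.mem_univ i))
  have hS := So_nonneg k (cR q * z)
  by_cases hi : (i : ℕ) < k
  · have h1 : (Eq_ k q i j : ℝ) = ∑ l, (cR q * z) i l * z⁻¹ l j := by
      rw [← Matrix.mul_apply, mul_assoc, Matrix.mul_nonsing_inv z hzu, mul_one]
      simp only [Eq_, if_pos hi]
      rfl
    rw [h1]
    calc |∑ l, (cR q * z) i l * z⁻¹ l j| ≤ ∑ l, |(cR q * z) i l * z⁻¹ l j| :=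
          Finset.abs_sum_le_sum_abs _ _
      _ ≤ ∑ l, |(cR q * z) i l| * B := by
          refine Finset.sum_le_sum fun l _ => ?_
          rw [abs_mul]
          exact mul_le_mul_of_nonneg_left (hBe l j) (abs_nonneg _)
      _ = (∑ l, |(cR q * z) i l|) * B := by rw [Finset.sum_mul]
      _ ≤ So k (cR q * z) * B := mul_le_mul_of_nonneg_right (le_So_row k _ i hi) hB
      _ ≤ (1 + A + B) * So k (cR q * z) := by nlinarith
  · by_cases hj : k ≤ (j : ℕ)
    · have hinv : (cR q)⁻¹ = cR q⁻¹ := by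
        refine Matrix.inv_eq_right_inv ?_
        rw [← cR_mul, Matrix.mul_nonsing_inv q hu, cR_one]
      have h1 : (Eq_ k q i j : ℝ) = ∑ l, z i l * (cR q * z)⁻¹ l j := by
        rw [← Matrix.mul_apply, Matrix.mul_inv_rev, ← mul_assoc, Matrix.mul_nonsing_inv z hzu,
          one_mul, hinv]
        simp only [Eq_, if_neg hi, if_pos hj]
        rfl
      rw [h1]
      calc |∑ l, z i l * (cR q * z)⁻¹ l j| ≤ ∑ l, |z i l * (cR q * z)⁻¹ l j| :=
            Finset.abs_sum_le_sum_abs _ _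
        _ ≤ ∑ l, A * |(cR q * z)⁻¹ l j| := by
            refine Finset.sum_le_sum fun l _ => ?_
            rw [abs_mul]
            exact mul_le_mul_of_nonneg_right (hAe i l) (abs_nonneg _)
        _ = A * ∑ l, |(cR q * z)⁻¹ l j| := by rw [Finset.mul_sum]
        _ ≤ A * So k (cR q * z) := mul_le_mul_of_nonneg_left (le_So_col k _ j hj) hA
        _ ≤ (1 + A + B) * So k (cR q * z) := by nlinarith
    · simp only [Eq_, if_neg hi, if_neg hj, Int.cast_zero, abs_zero]
      positivity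

/-- the weight -/
noncomputable def om {m : ℕ} (k : ℕ) (z : V m) : ENNReal :=
  ENNReal.ofReal (((1 + So k (mt z)) ^ (2 * (m * m)))⁻¹)

theorem om_ne {m : ℕ} (k : ℕ) (z : V m) : om k z ≠ 0 := by
  unfold om
  have h := So_nonneg k (mt z)
  exact (ENNReal.ofReal_pos.2 (by positivity)).ne'

theorem om_sum {m : ℕ} (k : ℕ) (z : V m) (hz : (mt z).det ≠ 0) :
    (∑' q : {q : ZM m // InQ k q}, om k (lm (cR q.1) z)) ≠ ⊤ := by
  set C : ℝ := 1 + (∑ i : Fin m, ∑ j : Fin m, |(mt z) i j|) +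
    ∑ i : Fin m, ∑ j : Fin m, |(mt z)⁻¹ i j| with hCd
  have hC : 1 ≤ C := by
    have h1 : 0 ≤ ∑ i : Fin m, ∑ j : Fin m, |(mt z) i j| :=
      Finset.sum_nonneg fun i _ => Finset.sum_nonneg fun j _ => abs_nonneg _
    have h2 : 0 ≤ ∑ i : Fin m, ∑ j : Fin m, |(mt z)⁻¹ i j| :=
      Finset.sum_nonneg fun i _ => Finset.sum_nonneg fun j _ => abs_nonneg _
    linarith
  have hC0 : 0 < C := by linarith
  let a : ℤ → ENNReal := fun n => ENNReal.ofReal (((1 + |(n : ℝ)| / C) ^ 2)⁻¹)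
  let F : (Fin m → Fin m → ℤ) → ENNReal := fun E => ∏ i, ∏ j, a (E i j)
  have hle : ∀ q : {q : ZM m // InQ k q}, om k (lm (cR q.1) z) ≤ F (Eq_ k q.1) := by
    intro q
    have hb := fun i j => Eq_bound q.2 (mt z) hz i j
    have hS := So_nonneg k (cR q.1 * mt z)
    have h1 : mt (lm (cR q.1) z) = cR q.1 * mt z := rfl
    have h2 : F (Eq_ k q.1) =
        ENNReal.ofReal (∏ i : Fin m, ∏ j : Fin m, ((1 + |(Eq_ k q.1 i j : ℝ)| / C) ^ 2)⁻¹) := by
      rw [ENNReal.ofReal_prod_of_nonneg (fun i _ => Finset.prod_nonneg fun j _ => by positivity)]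
      refine Finset.prod_congr rfl fun i _ => ?_
      rw [ENNReal.ofReal_prod_of_nonneg (fun j _ => by positivity)]
    rw [h2]
    unfold om
    rw [h1]
    refine ENNReal.ofReal_le_ofReal ?_
    have h3 : ((1 + So k (cR q.1 * mt z)) ^ (2 * (m * m)))⁻¹ =
        ∏ _i : Fin m, ∏ _j : Fin m, ((1 + So k (cR q.1 * mt z)) ^ 2)⁻¹ := by
      rw [Finset.prod_const, Finset.prod_const, Finset.card_univ, Fintype.card_fin, inv_pow,
        inv_pow, ← pow_mul, ← pow_mul]
    rw [h3]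
    refine Finset.prod_le_prod (fun i _ => Finset.prod_nonneg fun j _ => by positivity)
      fun i _ => Finset.prod_le_prod (fun j _ => by positivity) fun j _ => ?_
    refine inv_anti₀ (by positivity) (pow_le_pow_left₀ (by positivity) ?_ 2)
    have h4 : |(Eq_ k q.1 i j : ℝ)| / C ≤ So k (cR q.1 * mt z) := by
      rw [div_le_iff₀ hC0]
      have := hb i j
      rw [← hCd] at this
      linarith
    linarith
  have hinj : Function.Injective fun q : {q : ZM m // InQ k q} => Eq_ k q.1 :=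
    fun q q' he => Subtype.ext (Eq_inj q.2 q'.2 he)
  have htot : ∑' E : Fin m → Fin m → ℤ, F E ≠ ⊤ := by
    have h1 : ∑' E : Fin m → Fin m → ℤ, F E ≤ (∑' v : Fin m → ℤ, ∏ j, a (v j)) ^ m :=
      tsum_pi_le m (fun v : Fin m → ℤ => ∏ j, a (v j))
    have h2 : (∑' v : Fin m → ℤ, ∏ j, a (v j)) ≤ (∑' n : ℤ, a n) ^ m := tsum_pi_le m a
    have h3 : (∑' n : ℤ, a n) ≠ ⊤ := summ_int C hC
    refine ne_top_of_le_ne_top ?_ h1
    refine ENNReal.pow_ne_top (ne_top_of_le_ne_top ?_ h2)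
    exact ENNReal.pow_ne_top h3
  refine ne_top_of_le_ne_top htot ?_
  calc (∑' q : {q : ZM m // InQ k q}, om k (lm (cR q.1) z))
      ≤ ∑' q : {q : ZM m // InQ k q}, F (Eq_ k q.1) := ENNReal.tsum_le_tsum hle
    _ ≤ ∑' E : Fin m → Fin m → ℤ, F E := ENNReal.tsum_comp_le_tsum_of_injective hinj F

theorem pf_OMG : T_OMG := by
  intro m k _
  refine ⟨om k, ?_, ?_, ?_⟩
  · unfold om
    refine ENNReal.measurable_ofReal.comp ?_
    exact ((measurable_const.add (measurable_So k)).pow_const _).inv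
  · intro z u _
    unfold om
    have h1 : mt (lm (1 + nk k u) z) = (1 + nk k u) * mt z := rfl
    rw [h1, So_inv]
  · intro z hz
    refine ⟨fun h0 => ?_, om_sum k z hz⟩
    have h1 := ENNReal.tsum_eq_zero.1 h0 ⟨1, isUnit_one, fun i j hij => by
      rw [Matrix.one_apply, if_neg]
      rintro rfl
      rcases hij with h | h <;> omega⟩
    exact om_ne k _ h1

end Pool.Agent.H4.GU
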